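import Mathlib
import Pool.Agent.MP_c4844d_an.Ground

/-!
The first Dirichlet eigenfunction of the tetrahedral spherical triangle is also an eigenfunction
of the fourth-order operator Lx^4 + Ly^4 + Lz^4.
-/

open scoped ContDiff

namespace Pool.Agent.Results.MP_c4844d_an.QuarticOperator

open Pool.Agent.MP_c4844d_an

theorem result : ∃ (u : E3 → ℝ) (h : ℝ),
    ContDiffOn ℝ ∞ u cone ∧
    (∀ x ∈ cone, ∀ t : ℝ, 0 < t → u (t • x) = u x) ∧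
    (∀ x ∈ cone, 0 ≤ u x) ∧ (∃ x ∈ cone, 0 < u x) ∧
    (∀ ε : ℝ, 0 < ε → ∃ K : Set E3, IsCompact K ∧ K ⊆ cone ∧
      ∀ x ∈ cone, ‖x‖ = 1 → x ∉ K → |u x| < ε) ∧
    (∀ x ∈ cone, ∑ i : Fin 3, (rotD (axis i))^[2] u x = -lam1 * u x) ∧
    (∀ x ∈ cone, ∑ i : Fin 3, (rotD (axis i))^[4] u x = h * u x) := by
  obtain ⟨b, hb, h, b0, -, cp, hrec, pos⟩ := ground
  have w := cp.se rad73 hb
  have nn : ∀ x ∈ cone, 0 ≤ glue lam1 (pr hb) x := fun x hx =>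
    rad73.ind (P := fun x => 0 ≤ glue lam1 (pr hb) x)
      (fun y hy => by rw [glue0 hy]; exact pos y hy) (fun y hy a => by rwa [w.cyc y hy] at a) hx
  obtain ⟨s, a, c⟩ := (U_ne_zero lam1 rad73 hb b0).exists
  refine ⟨glue lam1 (pr hb), h, w.smooth, w.hom, nn,
    ⟨_, a.1, lt_of_le_of_ne (nn _ a.1) (by rw [glue0 a]; exact c.symm)⟩, fun ε hε => ?_, w.eig,
    fun x hx => cp.qua rad73 (D4_eig hb hrec) hx⟩
  obtain ⟨K, k1, k2, k3⟩ := w.bdry ε hε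
  exact ⟨K, k1, k2, fun x hx n => k3 x ⟨hx, n⟩⟩

end Pool.Agent.Results.MP_c4844d_an.QuarticOperator
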