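import Mathlib
import Pool.Agent.MP_c4844d_an.Centre

/-!
The first Dirichlet eigenvalue of the tetrahedral spherical triangle is the least real number
for which an explicit system (a three-term recurrence, a decay condition and two series
equations) has a solution.
-/

namespace Pool.Agent.Results.MP_c4844d_an.SeriesSystem

open Pool.Agent.MP_c4844d_an

theorem result : IsLeast {lam : ℝ | Sol lam} lam1 :=
  ⟨sol_lam1, fun _ h => Sol.lam1_le h⟩

end Pool.Agent.Results.MP_c4844d_an.SeriesSystem
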